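import Mathlib

namespace Pool.Agent.H.MP_6eb00f_an

open Finset Matrix
open scoped Kronecker

section
variable {ι R S : Type*} [DecidableEq ι] [Ring R] [Ring S]

def Q (A : ι → R) : ℕ → Finset ι → R
  | 0, _ => 1
  | m + 1, T => ∑ a ∈ T, A a * Q A m (T.erase a)

lemma Q_eq [Fintype ι] (A : ι → R) (m : ℕ) (T : Finset ι) : Q A m T =
    ∑ j : Fin m → ι with Function.Injective j ∧ ∀ t, j t ∈ T, (List.ofFn fun t => A (j t)).prod := by
  induction m generalizing T with
  | zero => simp [Q, filter_true_of_mem, Function.injective_of_subsingleton]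
  | succ m ih =>
    rw [Q, sum_filter, ← (Fin.consEquiv fun _ => ι).sum_comp, Fintype.sum_prod_type,
      ← sum_subset (subset_univ T)]
    · refine sum_congr rfl fun a ha => ?_
      rw [ih, mul_sum, sum_filter]
      refine sum_congr rfl fun j _ => if_congr ?_ (by simp [List.ofFn_succ]) rfl
      simp only [Fin.consEquiv_apply, mem_erase, Fin.forall_fin_succ, Fin.cons_zero, Fin.cons_succ]
      rw [show (Fin.consEquiv fun _ => ι) (a, j) = Fin.cons a j from rfl,
        Fin.cons_injective_iff]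
      simp only [Set.mem_range, not_exists, ha, true_and, forall_and]
      tauto
    · intro a _ ha
      refine sum_eq_zero fun j _ => if_neg fun h => ha ?_
      simpa using h.2 0

lemma Q_map (φ : R →+* S) {A : ι → R} {B : ι → S} (m : ℕ) (T : Finset ι)
    (h : ∀ a ∈ T, B a = φ (A a)) : Q B m T = φ (Q A m T) := by
  induction m generalizing T with
  | zero => simp [Q]
  | succ m ih =>
    rw [Q, Q, map_sum]
    exact sum_congr rfl fun a ha => by
      rw [map_mul, h a ha, ih _ fun b hb => h b (mem_of_mem_erase hb)]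

lemma Q_comm {A : ι → R} {b : R} (m : ℕ) (T : Finset ι) (h : ∀ a ∈ T, Commute b (A a)) :
    Commute b (Q A m T) := by
  induction m generalizing T with
  | zero => exact Commute.one_right _
  | succ m ih =>
    exact Commute.sum_right _ _ _ fun a ha =>
      (h a ha).mul_right (ih _ fun c hc => h c (mem_of_mem_erase hc))

lemma Q_union (A : ι → R) (p q : ℕ) (T U : Finset ι) (hT : T.card = p) (hU : U.card = q)
    (d : Disjoint T U) (h : ∀ a ∈ T, ∀ b ∈ U, Commute (A b) (A a)) :
    Q A (p + q) (T ∪ U) = (p + q).choose p • (Q A p T * Q A q U) := by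
  induction p generalizing q T U with
  | zero => simp [card_eq_zero.1 hT, Q]
  | succ p ih =>
    induction q generalizing T U with
    | zero => simp [card_eq_zero.1 hU, Q]
    | succ q ih2 =>
      have e : p + 1 + (q + 1) = (p + (q + 1)) + 1 := by ring
      have a : ∀ a ∈ T, A a * Q A (p + (q + 1)) ((T ∪ U).erase a) =
          (p + (q + 1)).choose p • (A a * Q A p (T.erase a) * Q A (q + 1) U) := fun a ha => by
        rw [erase_union_distrib, erase_eq_of_notMem (disjoint_left.1 d ha), ih (q + 1) _ U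
          (by rw [card_erase_of_mem ha, hT]; rfl) hU (d.mono_left (erase_subset _ _))
          fun x hx => h x (mem_of_mem_erase hx), mul_smul_comm, mul_assoc]
      have b : ∀ b ∈ U, A b * Q A (p + (q + 1)) ((T ∪ U).erase b) =
          (p + (q + 1)).choose (p + 1) • (Q A (p + 1) T * (A b * Q A q (U.erase b))) :=
        fun b hb => by
        rw [erase_union_distrib, erase_eq_of_notMem (disjoint_right.1 d hb),
          show p + (q + 1) = p + 1 + q by ring, ih2 T _ hT
          (by rw [card_erase_of_mem hb, hU]; rfl) (d.mono_right (erase_subset _ _))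
          fun x hx y hy => h x hx y (mem_of_mem_erase hy), mul_smul_comm, ← mul_assoc,
          (Q_comm _ T fun x hx => h x hx b hb).eq, mul_assoc]
      rw [e, Q, sum_union d, sum_congr rfl a, sum_congr rfl b, ← smul_sum, ← smul_sum, ← sum_mul,
        ← mul_sum, Nat.choose_succ_succ', add_smul]
      rfl

end

def N : Fin 10 → Matrix (Fin 3) (Fin 3) ℚ := fun k =>
  if k.1 % 5 = 0 then !![10/8, 5/8, -5/8; 5/8, 6/8, 1/8; -5/8, 1/8, 6/8]
  else if k.1 % 5 = 1 then !![10/8, 5/8, 5/8; 5/8, 6/8, -1/8; 5/8, -1/8, 6/8]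
  else if k.1 % 5 = 2 then !![10/8, -5/8, 5/8; -5/8, 6/8, 1/8; 5/8, 1/8, 6/8]
  else if k.1 % 5 = 3 then !![10/8, -5/8, -5/8; -5/8, 6/8, -1/8; -5/8, -1/8, 6/8]
  else !![0, 0, 0; 0, 2, 0; 0, 0, 2]

lemma q1 : ∀ i, Q N 5 {0, 1, 2, 3, 4} i 0 = if i = 0 then -15675 / 128 else 0 := by
  decide +kernel

lemma q2 : ∀ i, Q N 5 {5, 6, 7, 8, 9} i 0 = if i = 0 then -15675 / 128 else 0 := by
  decide +kernel

lemma psd (k : Fin 10) : ((N k).map (Rat.cast : ℚ → ℝ)).PosSemidef := by
  refine PosSemidef.of_dotProduct_mulVec_nonneg ?_ fun x => ?_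
  · ext i j
    fin_cases k <;> fin_cases i <;> fin_cases j <;> simp [N]
  · fin_cases k <;> simp [N, dotProduct, mulVec, Fin.sum_univ_three] <;>
      nlinarith [sq_nonneg (2 * x 0 + x 1 - x 2), sq_nonneg (2 * x 0 + x 1 + x 2),
        sq_nonneg (2 * x 0 - x 1 - x 2), sq_nonneg (2 * x 0 - x 1 + x 2), sq_nonneg (x 1 + x 2),
        sq_nonneg (x 1 - x 2)]

noncomputable def kr (X Y : Matrix (Fin 3) (Fin 3) ℚ) : Matrix (Fin 9) (Fin 9) ℝ :=
  reindex finProdFinEquiv finProdFinEquiv (X.map (Rat.cast : ℚ → ℝ) ⊗ₖ Y.map (Rat.cast : ℚ → ℝ))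

lemma kr_mul (X Y X' Y') : kr (X * X') (Y * Y') = kr X Y * kr X' Y' := by
  simp only [kr, reindex_apply, submatrix_mul_equiv, ← mul_kronecker_mul]
  rw [show (X * X').map Rat.cast = _ from Matrix.map_mul (f := Rat.castHom ℝ),
    show (Y * Y').map Rat.cast = _ from Matrix.map_mul (f := Rat.castHom ℝ)]
  rfl

lemma kr_one : kr 1 1 = 1 := by simp [kr]

noncomputable def φ : Matrix (Fin 3) (Fin 3) ℚ →+* Matrix (Fin 9) (Fin 9) ℝ where
  toFun X := kr X 1
  map_one' := kr_one
  map_mul' X Y := by rw [← kr_mul, one_mul]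
  map_zero' := by simp [kr]
  map_add' X Y := by ext; simp [kr, add_mul]

noncomputable def ψ : Matrix (Fin 3) (Fin 3) ℚ →+* Matrix (Fin 9) (Fin 9) ℝ where
  toFun X := kr 1 X
  map_one' := kr_one
  map_mul' X Y := by rw [← kr_mul, one_mul]
  map_zero' := by simp [kr]
  map_add' X Y := by ext; simp [kr, mul_add]

lemma φψ (X Y) : φ X * ψ Y = kr X Y := (kr_mul _ _ _ _).symm.trans (by simp)

lemma ψφ (X Y) : ψ Y * φ X = kr X Y := (kr_mul _ _ _ _).symm.trans (by simp)

noncomputable def B (k : Fin 10) : Matrix (Fin 9) (Fin 9) ℝ := if k.1 < 5 then φ (N k) else ψ (N k)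

lemma B_psd (k : Fin 10) : (B k).PosSemidef := by
  have o : ((1 : Matrix (Fin 3) (Fin 3) ℚ).map (Rat.cast : ℚ → ℝ)).PosSemidef := by
    simpa using PosSemidef.one
  unfold B
  split_ifs
  · exact ((psd k).kronecker o).submatrix _
  · exact (o.kronecker (psd k)).submatrix _

lemma B_sum : ∑ k, B k = (10 : ℝ) • 1 := by
  have a : N 0 + N 1 + N 2 + N 3 + N 4 = 5 := by decide +kernel
  have b : N 5 + N 6 + N 7 + N 8 + N 9 = 5 := by decide +kernel
  have : ∑ k, B k = φ (N 0 + N 1 + N 2 + N 3 + N 4) + ψ (N 5 + N 6 + N 7 + N 8 + N 9) := by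
    simp [Fin.sum_univ_succ, B, add_assoc]
  rw [this, a, b, map_ofNat, map_ofNat, show (10 : ℝ) = (10 : ℕ) from rfl, Nat.cast_smul_eq_nsmul,
    nsmul_one]
  norm_num

lemma B_Q : Q B 10 univ = 252 • kr (Q N 5 {0, 1, 2, 3, 4}) (Q N 5 {5, 6, 7, 8, 9}) := by
  have a : ∀ k ∈ ({0, 1, 2, 3, 4} : Finset (Fin 10)), B k = φ (N k) := fun k hk =>
    if_pos (by revert k; decide)
  have b : ∀ k ∈ ({5, 6, 7, 8, 9} : Finset (Fin 10)), B k = ψ (N k) := fun k hk =>
    if_neg (by revert k; decide)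
  have := Q_union B 5 5 {0, 1, 2, 3, 4} {5, 6, 7, 8, 9} rfl rfl (by decide) fun x hx y hy => by
    rw [a x hx, b y hy, Commute, SemiconjBy, φψ, ψφ]
  rw [Q_map φ 5 _ a, Q_map ψ 5 _ b, φψ] at this
  exact this

end Pool.Agent.H.MP_6eb00f_an
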